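import Pool.Agent.G02.StmtsS

/-!
# Row MOB of the squad G02: preimages under a Moebius function
-/

set_option autoImplicit false

namespace Pool.Agent.G02.H24

open Polynomial Pool.Agent.G02

/-- **MOB**. -/
theorem mob : MobStmt := by
  classical
  intro x y h Z
  obtain ⟨x₁, x₀, hx⟩ := exists_eq_X_add_C_of_natDegree_le_one h.dx
  obtain ⟨y₁, y₀, hy⟩ := exists_eq_X_add_C_of_natDegree_le_one h.dy
  have ex : ∀ t : ℚ, x.eval t = x₁ * t + x₀ := by
    intro t
    rw [hx]
    simp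
  have ey : ∀ t : ℚ, y.eval t = y₁ * t + y₀ := by
    intro t
    rw [hy]
    simp
  refine ⟨insert (x₁ / y₁) (Z.image fun t => x.eval t / y.eval t), fun τ hτ => ?_⟩
  rw [Finset.mem_insert, not_or] at hτ
  obtain ⟨hτ1, hτ2⟩ := hτ
  have hne : x₁ - τ * y₁ ≠ 0 := by
    intro h0
    have h1 : x₁ = τ * y₁ := by linarith
    by_cases hy1 : y₁ = 0
    · apply h.nc
      constructor
      · rw [hx, h1, hy1]
        simp
      · rw [hy, hy1]
        simp
    · apply hτ1
      rw [h1]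
      field_simp
  have hroot : x.eval (-(x₀ - τ * y₀) / (x₁ - τ * y₁)) =
      τ * y.eval (-(x₀ - τ * y₀) / (x₁ - τ * y₁)) := by
    rw [ex, ey]
    field_simp
    ring
  have hyne : y.eval (-(x₀ - τ * y₀) / (x₁ - τ * y₁)) ≠ 0 := by
    intro h0
    rw [h0, mul_zero] at hroot
    obtain ⟨u, v, huv⟩ := h.cop
    have h1 := congrArg (fun q : ℚ[X] => q.eval (-(x₀ - τ * y₀) / (x₁ - τ * y₁))) huv
    simp only [eval_add, eval_mul, eval_one, hroot, h0, mul_zero, add_zero] at h1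
    exact zero_ne_one h1
  refine ⟨-(x₀ - τ * y₀) / (x₁ - τ * y₁), fun hZ => ?_, hyne, hroot⟩
  apply hτ2
  rw [Finset.mem_image]
  refine ⟨_, hZ, ?_⟩
  rw [hroot, mul_div_assoc, div_self hyne, mul_one]

end Pool.Agent.G02.H24
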